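import Mathlib

open Cardinal Set

namespace Q210.Gal

universe u

variable {κ : Cardinal.{u}} {X : Type u}

/-- two members of the ultrafilter -/
lemma ne_empty_of_mem {α : Type u} (U : Ultrafilter α) {s : Set α} (h : s ∈ U) : s.Nonempty :=
  U.neBot.nonempty_of_mem h

/-- indexed completeness. -/
lemma iInter_mem (U : Ultrafilter {x : Set X // #x < κ})
    (hc : ∀ S : Set (Set {x : Set X // #x < κ}), #S < κ → (∀ s ∈ S, s ∈ U) → ⋂₀ S ∈ U)
    {ι : Type u} (hι : #ι < κ) (F : ι → Set {x : Set X // #x < κ}) (hF : ∀ i, F i ∈ U) :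
    (⋂ i, F i) ∈ U := by
  have := hc (Set.range F) (lt_of_le_of_lt mk_range_le hι) (by rintro s ⟨i, rfl⟩; exact hF i)
  rwa [Set.sInter_range] at this

/-- closure under a function. -/
lemma closed_mem (U : Ultrafilter {x : Set X // #x < κ})
    (hf : ∀ a : X, {x : {x : Set X // #x < κ} | a ∈ x.1} ∈ U)
    (hn : ∀ f : {x : Set X // #x < κ} → X, {x : {x : Set X // #x < κ} | f x ∈ x.1} ∈ U →
        ∃ a : X, {x : {x : Set X // #x < κ} | f x = a} ∈ U) (g : X → X) :
    {x : {x : Set X // #x < κ} | ∀ a ∈ x.1, g a ∈ x.1} ∈ U := by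
  classical
  by_contra hcon
  have h1 : {x : {x : Set X // #x < κ} | ∀ a ∈ x.1, g a ∈ x.1}ᶜ ∈ U :=
    Ultrafilter.compl_mem_iff_notMem.2 hcon
  obtain ⟨x0, hx0⟩ := ne_empty_of_mem U h1
  have hX0 : Nonempty X := by
    simp only [Set.mem_compl_iff, Set.mem_ofPred_eq, not_forall] at hx0
    obtain ⟨a, _, _⟩ := hx0
    exact ⟨a⟩
  let f : {x : Set X // #x < κ} → X := fun x =>
    if h : ∃ a, a ∈ x.1 ∧ g a ∉ x.1 then h.choose else Classical.choice hX0
  have hf1 : ∀ x ∈ {x : {x : Set X // #x < κ} | ∀ a ∈ x.1, g a ∈ x.1}ᶜ,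
      f x ∈ x.1 ∧ g (f x) ∉ x.1 := by
    intro x hx
    have h : ∃ a, a ∈ x.1 ∧ g a ∉ x.1 := by
      simp only [Set.mem_compl_iff, Set.mem_ofPred_eq, not_forall] at hx
      obtain ⟨a, ha, hb⟩ := hx
      exact ⟨a, ha, hb⟩
    have : f x = h.choose := by simp only [f]; rw [dif_pos h]
    rw [this]
    exact h.choose_spec
  obtain ⟨a, ha⟩ := hn f (Filter.mem_of_superset h1 fun x hx => (hf1 x hx).1)
  obtain ⟨x, ⟨hx1, hx2⟩, hx3⟩ := ne_empty_of_mem U (Filter.inter_mem (Filter.inter_mem h1 ha)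
    (hf (g a)))
  have h5 := (hf1 x hx1).2
  have h6 : f x = a := hx2
  rw [h6] at h5
  exact h5 hx3

/-- `κ` is a strong limit. -/
lemma two_power_lt (hX : κ ≤ #X) (U : Ultrafilter {x : Set X // #x < κ})
    (hc : ∀ S : Set (Set {x : Set X // #x < κ}), #S < κ → (∀ s ∈ S, s ∈ U) → ⋂₀ S ∈ U)
    (hf : ∀ a : X, {x : {x : Set X // #x < κ} | a ∈ x.1} ∈ U)
    (Γ : Type u) (hΓ : #Γ < κ) : #(Set Γ) < κ := by
  classical
  by_contra hcon
  rw [not_lt] at hcon
  -- an injection of a type of size κ in X and in Set Γ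
  have hK : #(κ.out) = κ := mk_out κ
  obtain ⟨e⟩ : Nonempty (κ.out ↪ X) := by rwa [← hK, Cardinal.le_def] at hX
  obtain ⟨h⟩ : Nonempty (κ.out ↪ Set Γ) := by rwa [← hK, Cardinal.le_def] at hcon
  have hex : ∀ x : {x : Set X // #x < κ}, ∃ k : κ.out, e k ∉ x.1 := by
    intro x
    by_contra hno
    push Not at hno
    have : #(κ.out) ≤ #x.1 :=
      Cardinal.mk_le_of_injective (f := fun k => (⟨e k, hno k⟩ : x.1))
        (fun a b hab => e.injective (by simpa using hab))
    rw [hK] at this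
    exact absurd x.2 (not_lt.2 this)
  choose π hπ using hex
  -- decide each coordinate
  let D : Set Γ := {ξ | {x : {x : Set X // #x < κ} | ξ ∈ h (π x)} ∈ U}
  have hdec : ∀ ξ : Γ, {x : {x : Set X // #x < κ} | ξ ∈ h (π x) ↔ ξ ∈ D} ∈ U := by
    intro ξ
    by_cases hξ : ξ ∈ D
    · have : {x : {x : Set X // #x < κ} | ξ ∈ h (π x)} ∈ U := hξ
      filter_upwards [this] with x hx
      exact ⟨fun _ => hξ, fun _ => hx⟩
    · have : {x : {x : Set X // #x < κ} | ξ ∈ h (π x)}ᶜ ∈ U :=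
        Ultrafilter.compl_mem_iff_notMem.2 hξ
      filter_upwards [this] with x hx
      exact ⟨fun hh => absurd hh hx, fun hh => absurd hh hξ⟩
  have hall := iInter_mem U hc hΓ _ hdec
  obtain ⟨x, hx⟩ := ne_empty_of_mem U hall
  obtain ⟨y, hy1, hy2⟩ := ne_empty_of_mem U (Filter.inter_mem hall (hf (e (π x))))
  have hxD : h (π x) = D := by
    ext ξ
    exact (Set.mem_iInter.1 hx ξ)
  have hyD : h (π y) = D := by
    ext ξ
    exact (Set.mem_iInter.1 hy1 ξ)
  have : π x = π y := h.injective (hxD.trans hyD.symm)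
  have h7 := hπ y
  rw [← this] at h7
  exact h7 hy2

/-- The main theorem. -/
theorem main (hκ : ℵ₀ < κ) (hX : #X = Order.succ κ)
    (U : Ultrafilter {x : Set X // #x < κ})
    (hc : ∀ S : Set (Set {x : Set X // #x < κ}), #S < κ → (∀ s ∈ S, s ∈ U) → ⋂₀ S ∈ U)
    (hf : ∀ a : X, {x : {x : Set X // #x < κ} | a ∈ x.1} ∈ U)
    (hn : ∀ f : {x : Set X // #x < κ} → X, {x : {x : Set X // #x < κ} | f x ∈ x.1} ∈ U →
        ∃ a : X, {x : {x : Set X // #x < κ} | f x = a} ∈ U)
    (B : Set (Set (Order.succ κ).ord.ToType)) (hB : Order.succ κ ≤ #B)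
    (hB2 : ∀ b, #((fun A => A ∩ Set.Iio b) '' B) ≤ Order.succ κ) :
    ∃ S : Set (Set {x : Set X // #x < κ}), (∀ s ∈ S, s ∈ U) ∧ #S = #B ∧
      ∀ T ⊆ S, κ ≤ #T → ⋂₀ T ∉ U := by
  classical
  have hℵ : ℵ₀ ≤ Order.succ κ := hκ.le.trans (Order.le_succ κ)
  have hKc : #((Order.succ κ).ord.ToType) = Order.succ κ := by
    rw [Cardinal.mk_toType, Cardinal.card_ord]
  obtain ⟨e⟩ : Nonempty (X ≃ (Order.succ κ).ord.ToType) := by
    rw [← Cardinal.eq, hX, hKc]
  have hsl : ∀ x : {x : Set X // #x < κ}, #(Set x.1) < κ := fun x =>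
    two_power_lt (by rw [hX]; exact Order.le_succ κ) U hc hf _ x.2
  -- the truncations
  let ZZ : Set (Set (Order.succ κ).ord.ToType) := ⋃ b, (fun A => A ∩ Set.Iio b) '' B
  have hZZ : #ZZ ≤ #X := by
    refine (Cardinal.mk_iUnion_le_sum_mk).trans ?_
    refine (Cardinal.sum_le_sum _ (fun _ => Order.succ κ) hB2).trans ?_
    rw [Cardinal.sum_const', hKc, hX, Cardinal.mul_eq_self hℵ]
  obtain ⟨emb⟩ := hZZ
  let Z : X → Set (Order.succ κ).ord.ToType := fun ζ =>
    if h : ∃ z : ZZ, emb z = ζ then h.choose.1 else ∅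
  have hZ : ∀ z : ZZ, Z (emb z) = z.1 := by
    intro z
    have h : ∃ z' : ZZ, emb z' = emb z := ⟨z, rfl⟩
    have : Z (emb z) = h.choose.1 := by simp only [Z]; rw [dif_pos h]
    rw [this, emb.injective h.choose_spec]
  have hex : ∀ A ∈ B, ∀ b : X, ∃ ζ, Z ζ = A ∩ Set.Iio (e b) := by
    intro A hA b
    refine ⟨emb ⟨A ∩ Set.Iio (e b), ?_⟩, hZ _⟩
    exact Set.mem_iUnion.2 ⟨e b, ⟨A, hA, rfl⟩⟩
  let D : {x : Set X // #x < κ} → Set (Order.succ κ).ord.ToType :=
    fun x => {k | ∃ b ∈ x.1, k < e b}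
  let star : Set (Order.succ κ).ord.ToType → Set {x : Set X // #x < κ} :=
    fun A => {x | ∃ t : Set x.1, A ∩ D x = ⋃ ζ ∈ t, Z ζ.1}
  have hstar : ∀ A ∈ B, star A ∈ U := by
    intro A hA
    choose g hg using hex A hA
    filter_upwards [closed_mem U hf hn g] with x hx
    refine ⟨{ζ | ∃ b ∈ x.1, g b = ζ.1}, ?_⟩
    ext k
    simp only [Set.mem_inter_iff, Set.mem_iUnion, D, Set.mem_ofPred_eq]
    constructor
    · rintro ⟨hk1, b, hb, hkb⟩
      refine ⟨⟨g b, hx b hb⟩, ⟨b, hb, rfl⟩, ?_⟩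
      change k ∈ Z (g b)
      rw [hg b]
      exact ⟨hk1, hkb⟩
    · rintro ⟨ζ, ⟨b, hb, hbζ⟩, hk⟩
      rw [← hbζ, hg b] at hk
      exact ⟨hk.1, b, hb, hk.2⟩
  -- the smallness lemma
  have hsmall : ∀ B' ⊆ B, κ ≤ #B' → {x | ∀ A ∈ B', x ∈ star A} ∉ U := by
    intro B' hB' hκB' hmem
    obtain ⟨C, hCB, hCκ⟩ := Cardinal.le_mk_iff_exists_subset.1 hκB'
    -- bound of the pairs
    have hdiff : ∀ p : C × C, ∃ k : (Order.succ κ).ord.ToType,
        p.1 ≠ p.2 → ¬ (k ∈ p.1.1 ↔ k ∈ p.2.1) := by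
      intro p
      by_cases hp : p.1 = p.2
      · exact ⟨e (Classical.choice (by
          rw [← Cardinal.mk_ne_zero_iff, hX]; exact (lt_of_lt_of_le aleph0_pos hℵ).ne')),
          fun h => absurd hp h⟩
      · have : p.1.1 ≠ p.2.1 := fun h => hp (Subtype.ext h)
        by_contra hno
        push Not at hno
        exact this (Set.ext fun k => (hno k).2)
    choose d hd using hdiff
    have hpairs : #(Set.range d) < Order.succ κ := by
      refine lt_of_le_of_lt mk_range_le ?_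
      rw [Cardinal.mk_prod, Cardinal.lift_id, hCκ,
        Cardinal.mul_eq_self hκ.le]
      exact Order.lt_succ κ
    obtain ⟨bs, hbs⟩ : ∃ bs : (Order.succ κ).ord.ToType, ∀ k ∈ Set.range d, k < bs := by
      have hreg : (Order.succ κ).IsRegular := Cardinal.isRegular_succ hκ.le
      have hunb : ¬ IsCofinal (Set.range d) := by
        intro hcof
        have h8 := Order.cof_le hcof
        rw [Ordinal.cof_toType, hreg.cof_ord] at h8
        exact absurd hpairs (not_lt.2 h8)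
      unfold IsCofinal at hunb
      push Not at hunb
      exact hunb
    obtain ⟨x, hx1, hx2⟩ := ne_empty_of_mem U (Filter.inter_mem hmem (hf (e.symm bs)))
    have hx2' : e.symm bs ∈ x.1 := hx2
    have hx1' : ∀ A : C, ∃ t : Set x.1, A.1 ∩ D x = ⋃ ζ ∈ t, Z ζ.1 := fun A => hx1 A.1 (hCB A.2)
    choose tt htt using hx1'
    have hinj : Function.Injective tt := by
      intro A A' hAA
      by_contra hne
      have h9 := hd (A, A') hne
      have h10 : d (A, A') ∈ D x := ⟨e.symm bs, hx2', by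
        rw [Equiv.apply_symm_apply]; exact hbs _ ⟨_, rfl⟩⟩
      have h11 : A.1 ∩ D x = A'.1 ∩ D x := by rw [htt A, htt A', hAA]
      apply h9
      constructor
      · intro h
        have : d (A, A') ∈ A.1 ∩ D x := ⟨h, h10⟩
        rw [h11] at this
        exact this.1
      · intro h
        have : d (A, A') ∈ A'.1 ∩ D x := ⟨h, h10⟩
        rw [← h11] at this
        exact this.1
    have h12 := Cardinal.mk_le_of_injective hinj
    rw [hCκ] at h12
    exact absurd (hsl x) (not_lt.2 h12)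
  refine ⟨star '' B, ?_, ?_, ?_⟩
  · rintro s ⟨A, hA, rfl⟩
    exact hstar A hA
  · refine le_antisymm mk_image_le ?_
    have h1 : #B ≤ #(star '' B) * κ := by
      refine Cardinal.mk_le_mk_mul_of_mk_preimage_le (c := κ)
        (fun A : B => (⟨star A.1, A.1, A.2, rfl⟩ : (star '' B : Set _))) ?_
      rintro ⟨s, A0, hA0, rfl⟩
      by_contra hlt
      rw [not_le] at hlt
      refine hsmall {A | A ∈ B ∧ star A = star A0} (fun A hA => hA.1) ?_ ?_
      · refine hlt.le.trans ?_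
        have hfib : ∀ A : ((fun A : B => (⟨star A.1, A.1, A.2, rfl⟩ : (star '' B : Set _))) ⁻¹'
            {⟨star A0, A0, hA0, rfl⟩} : Set B), star A.1.1 = star A0 := by
          rintro ⟨A, hA⟩
          exact congrArg Subtype.val hA
        refine Cardinal.mk_le_of_injective (f := fun A => ⟨A.1.1, A.1.2, hfib A⟩) ?_
        intro A A' h
        have h' : A.1.1 = A'.1.1 := by
          simpa using h
        exact Subtype.ext (Subtype.ext h')
      · filter_upwards [hstar A0 hA0] with x hx A hA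
        rw [hA.2]
        exact hx
    by_contra hlt
    rw [not_le] at hlt
    have h2 : #(star '' B) * κ < #B := by
      refine Cardinal.mul_lt_of_lt (hℵ.trans hB) hlt ?_
      exact (Order.lt_succ κ).trans_le hB
    exact absurd h1 (not_le.2 h2)
  · intro T hT hκT hmem
    have hch : ∀ s : T, ∃ A, A ∈ B ∧ star A = s.1 := fun s => by
      obtain ⟨A, hA, h⟩ := hT s.2
      exact ⟨A, hA, h⟩
    choose A hA hAs using hch
    refine hsmall (Set.range A) ?_ ?_ ?_
    · rintro _ ⟨s, rfl⟩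
      exact hA s
    · have : Function.Injective A := by
        intro s s' h
        apply Subtype.ext
        rw [← hAs s, ← hAs s', h]
      rw [Cardinal.mk_range_eq _ this]
      exact hκT
    · filter_upwards [hmem] with x hx
      rintro _ ⟨s, rfl⟩
      rw [hAs s]
      exact hx s.1 s.2

end Q210.Gal
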